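import Mathlib
import Pool.Agent.helper45.CF9

/-!
# Linear crossing families versus growing non-crossing families

For every real `c₀ < 1/2` there is a function `f` tending to infinity such that every large finite
planar point set `P` in general position has a crossing family of size at least `c₀ |P|` or a
non-crossing family of size at least `f |P|`; and with some positive constant `c` in place of `c₀`
the dichotomy holds for every `P` with at least two points.
-/

namespace Pool.Agent.Results.MP_657f9d_co.LinearCrossing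

open Pool.Agent.helper45

/-- `P` is in general position: no line contains three points of `P`. -/
def GeneralPosition (P : Finset (ℝ × ℝ)) : Prop :=
  ∀ a ∈ P, ∀ b ∈ P, ∀ c ∈ P, a ≠ b → a ≠ c → b ≠ c → ¬ Collinear ℝ ({a, b, c} : Set (ℝ × ℝ))

/-- Two closed segments cross: their intersection is a single point, which lies in the relative
interior of each of them. -/
def SegmentsCross (s t : Set (ℝ × ℝ)) : Prop :=
  ∃ p, s ∩ t = {p} ∧ p ∈ intrinsicInterior ℝ s ∧ p ∈ intrinsicInterior ℝ t

/-- `F` is a crossing family in `P`: a finite set of segments with both endpoints in `P`, any two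
of which cross.  Its size is `F.card`. -/
def IsCrossingFamily (P : Finset (ℝ × ℝ)) (F : Finset (Set (ℝ × ℝ))) : Prop :=
  (∀ s ∈ F, ∃ a ∈ P, ∃ b ∈ P, a ≠ b ∧ s = segment ℝ a b) ∧
  (∀ s ∈ F, ∀ t ∈ F, s ≠ t → SegmentsCross s t)

/-- `(P₁, P₂, P₃, P₄)` is a non-crossing family in `P`: pairwise disjoint nonempty subsets of `P`
such that `p₄` is in the interior of the triangle `p₁ p₂ p₃` for all choices `pᵢ ∈ Pᵢ`. -/
structure IsNonCrossingFamily (P P₁ P₂ P₃ P₄ : Finset (ℝ × ℝ)) : Prop where
  subset : P₁ ⊆ P ∧ P₂ ⊆ P ∧ P₃ ⊆ P ∧ P₄ ⊆ P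
  nonempty : P₁.Nonempty ∧ P₂.Nonempty ∧ P₃.Nonempty ∧ P₄.Nonempty
  disjoint : Disjoint P₁ P₂ ∧ Disjoint P₁ P₃ ∧ Disjoint P₁ P₄ ∧ Disjoint P₂ P₃ ∧
    Disjoint P₂ P₄ ∧ Disjoint P₃ P₄
  inside : ∀ p₁ ∈ P₁, ∀ p₂ ∈ P₂, ∀ p₃ ∈ P₃, ∀ p₄ ∈ P₄,
    p₄ ∈ interior (convexHull ℝ ({p₁, p₂, p₃} : Set (ℝ × ℝ)))

lemma openSegment_subset_intrinsicInterior {a b : ℝ × ℝ} (hab : a ≠ b) :
    openSegment ℝ a b ⊆ intrinsicInterior ℝ (segment ℝ a b) := by
  intro x hx
  -- the affine parameter
  set n : ℝ := (b.1 - a.1) ^ 2 + (b.2 - a.2) ^ 2 with hn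
  have hnpos : 0 < n := by
    by_contra hcon
    push Not at hcon
    apply hab
    have h1 : b.1 - a.1 = 0 := by nlinarith [sq_nonneg (b.1 - a.1), sq_nonneg (b.2 - a.2)]
    have h2 : b.2 - a.2 = 0 := by nlinarith [sq_nonneg (b.1 - a.1), sq_nonneg (b.2 - a.2)]
    ext <;> linarith
  let τ : ℝ × ℝ → ℝ := fun q => ((q.1 - a.1) * (b.1 - a.1) + (q.2 - a.2) * (b.2 - a.2)) / n
  have hτ : Continuous τ := by
    simp only [τ]
    fun_prop
  have hspan : ∀ q ∈ affineSpan ℝ (segment ℝ a b), q = (1 - τ q) • a + τ q • b := by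
    intro q hq
    have hle : affineSpan ℝ (segment ℝ a b) ≤ affineSpan ℝ {a, b} := by
      rw [affineSpan_le]
      rw [← convexHull_pair]
      exact convexHull_subset_affineSpan _
    have hq' := hle hq
    obtain ⟨r, rfl⟩ := (mem_affineSpan_pair_iff_exists_lineMap_eq).mp hq'
    have hτr : τ (AffineMap.lineMap a b r) = r := by
      simp only [τ, AffineMap.lineMap_apply_module', Prod.fst_add, Prod.smul_fst, Prod.fst_sub,
        smul_eq_mul, Prod.snd_add, Prod.smul_snd, Prod.snd_sub]
      rw [div_eq_iff hnpos.ne', hn]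
      ring
    rw [hτr, AffineMap.lineMap_apply_module]
  obtain ⟨s, t, hs, ht, hst, rfl⟩ := hx
  have hxseg : s • a + t • b ∈ segment ℝ a b := ⟨s, t, hs.le, ht.le, hst, rfl⟩
  rw [mem_intrinsicInterior]
  refine ⟨⟨s • a + t • b, subset_affineSpan ℝ _ hxseg⟩, ?_, rfl⟩
  rw [mem_interior]
  refine ⟨{q | 0 < τ q.1 ∧ τ q.1 < 1}, ?_, ?_, ?_⟩
  · rintro ⟨q, hq⟩ ⟨h1, h2⟩
    simp only at h1 h2
    change q ∈ segment ℝ a b
    exact ⟨1 - τ q, τ q, by linarith, h1.le, by ring, (hspan q hq).symm⟩
  · have h1 : Continuous fun q : affineSpan ℝ (segment ℝ a b) => τ q.1 :=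
      hτ.comp continuous_subtype_val
    exact (isOpen_lt continuous_const h1).inter (isOpen_lt h1 continuous_const)
  · have hs' : s = 1 - t := by linarith
    have hτx : τ (s • a + t • b) = t := by
      simp only [τ, Prod.fst_add, Prod.smul_fst, smul_eq_mul, Prod.snd_add, Prod.smul_snd]
      rw [div_eq_iff hnpos.ne', hn, hs']
      ring
    constructor
    · change 0 < τ (s • a + t • b)
      rw [hτx]; exact ht
    · change τ (s • a + t • b) < 1
      rw [hτx]; linarith

lemma segmentsCross_of_crossO {a b c d : ℝ × ℝ} (hab : a ≠ b) (hcd : c ≠ d)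
    (h : CrossO a b c d) : SegmentsCross (segment ℝ a b) (segment ℝ c d) := by
  obtain ⟨p, hp, hp1, hp2⟩ := cross_of_crossO h
  exact ⟨p, hp, openSegment_subset_intrinsicInterior hab hp1,
    openSegment_subset_intrinsicInterior hcd hp2⟩

lemma segment_ne_of_crossO {a b c d : ℝ × ℝ} (hab : a ≠ b)
    (h : CrossO a b c d) : segment ℝ a b ≠ segment ℝ c d := by
  intro heq
  obtain ⟨p, hp, -, -⟩ := cross_of_crossO h
  rw [← heq, Set.inter_self] at hp
  have ha : a ∈ segment ℝ a b := left_mem_segment ℝ a b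
  have hb : b ∈ segment ℝ a b := right_mem_segment ℝ a b
  rw [hp, Set.mem_singleton_iff] at ha hb
  exact hab (ha.trans hb.symm)

lemma crossing_of_sign {P : Finset (ℝ × ℝ)} {F : Finset ((ℝ × ℝ) × (ℝ × ℝ))}
    (hF : CrossFamO P F) : ∃ F' : Finset (Set (ℝ × ℝ)), IsCrossingFamily P F' ∧
      F'.card = F.card := by
  classical
  obtain ⟨hF1, hF2⟩ := hF
  refine ⟨F.image (fun e => segment ℝ e.1 e.2), ⟨?_, ?_⟩, ?_⟩
  · intro s hs
    obtain ⟨e, he, rfl⟩ := Finset.mem_image.mp hs
    obtain ⟨h1, h2, h3⟩ := hF1 e he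
    exact ⟨e.1, h1, e.2, h2, h3, rfl⟩
  · intro s hs t ht hne
    obtain ⟨e, he, rfl⟩ := Finset.mem_image.mp hs
    obtain ⟨e', he', rfl⟩ := Finset.mem_image.mp ht
    have hee : e ≠ e' := fun h => hne (by rw [h])
    exact segmentsCross_of_crossO (hF1 e he).2.2 (hF1 e' he').2.2 (hF2 e he e' he' hee)
  · apply Finset.card_image_of_injOn
    intro e he e' he' heq
    by_contra hne
    exact segment_ne_of_crossO (hF1 e he).2.2 (hF2 e he e' he' hne) heq

lemma noncrossing_of_sign {P : Finset (ℝ × ℝ)} {m : ℕ} (hm : 0 < m) (h : NonCrossO P m) :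
    ∃ P₁ P₂ P₃ P₄, IsNonCrossingFamily P P₁ P₂ P₃ P₄ ∧
      m ≤ min (min P₁.card P₂.card) (min P₃.card P₄.card) := by
  obtain ⟨P1, P2, P3, P4, c1, c2, c3, c4, s1, s2, s3, s4, htri⟩ := h
  have n1 : P1.Nonempty := Finset.card_pos.mp (by omega)
  have n2 : P2.Nonempty := Finset.card_pos.mp (by omega)
  have n3 : P3.Nonempty := Finset.card_pos.mp (by omega)
  have n4 : P4.Nonempty := Finset.card_pos.mp (by omega)
  refine ⟨P1, P2, P3, P4, ⟨⟨s1, s2, s3, s4⟩, ⟨n1, n2, n3, n4⟩, ?_, ?_⟩, ?_⟩
  · obtain ⟨p1, h1⟩ := n1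
    obtain ⟨p2, h2⟩ := n2
    obtain ⟨p3, h3⟩ := n3
    obtain ⟨p4, h4⟩ := n4
    refine ⟨?_, ?_, ?_, ?_, ?_, ?_⟩ <;> rw [Finset.disjoint_left] <;> intro x hx hx'
    · rcases htri x hx x hx' p3 h3 p4 h4 with h | h
      · have := h.1; rw [orr_self12] at this; exact lt_irrefl _ this
      · have := h.1; rw [orr_self12] at this; exact lt_irrefl _ this
    · rcases htri x hx p2 h2 x hx' p4 h4 with h | h
      · have := h.2.2; rw [orr_self12] at this; exact lt_irrefl _ this
      · have := h.2.2; rw [orr_self12] at this; exact lt_irrefl _ this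
    · rcases htri x hx p2 h2 p3 h3 x hx' with h | h
      · have := h.1; rw [orr_self13] at this; exact lt_irrefl _ this
      · have := h.1; rw [orr_self13] at this; exact lt_irrefl _ this
    · rcases htri p1 h1 x hx x hx' p4 h4 with h | h
      · have := h.2.1; rw [orr_self12] at this; exact lt_irrefl _ this
      · have := h.2.1; rw [orr_self12] at this; exact lt_irrefl _ this
    · rcases htri p1 h1 x hx p3 h3 x hx' with h | h
      · have := h.2.1; rw [orr_self13] at this; exact lt_irrefl _ this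
      · have := h.2.1; rw [orr_self13] at this; exact lt_irrefl _ this
    · rcases htri p1 h1 p2 h2 x hx x hx' with h | h
      · have := h.2.1; rw [orr_self23] at this; exact lt_irrefl _ this
      · have := h.2.1; rw [orr_self23] at this; exact lt_irrefl _ this
  · intro p1 h1 p2 h2 p3 h3 p4 h4
    exact (htri p1 h1 p2 h2 p3 h3 p4 h4).interior
  · simp only [le_min_iff]
    exact ⟨⟨c1, c2⟩, ⟨c3, c4⟩⟩

/-- **Main theorem.**  For every `c₀ < 1/2` there are a constant `c > 0`, a threshold `n₀` and a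
positive function `f` tending to infinity such that every finite set `P` of at least two points of
the plane, in general position, has a crossing family of size at least `c |P|` (and even at least
`c₀ |P|` once `|P| ≥ n₀`) or a non-crossing family of size at least `f |P|`. -/
theorem result (c₀ : ℝ) (hc₀ : c₀ < 1 / 2) :
    ∃ c : ℝ, 0 < c ∧ ∃ n₀ : ℕ, ∃ f : ℕ → ℕ, (∀ n, 0 < f n) ∧
      Filter.Tendsto f Filter.atTop Filter.atTop ∧
      ∀ P : Finset (ℝ × ℝ), GeneralPosition P → 2 ≤ P.card →
        (∃ F : Finset (Set (ℝ × ℝ)), IsCrossingFamily P F ∧ c * P.card ≤ F.card ∧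
          (n₀ ≤ P.card → c₀ * P.card ≤ F.card)) ∨
        (∃ P₁ P₂ P₃ P₄ : Finset (ℝ × ℝ), IsNonCrossingFamily P P₁ P₂ P₃ P₄ ∧
          f P.card ≤ min (min P₁.card P₂.card) (min P₃.card P₄.card)) := by
  classical
  set c1 : ℝ := max c₀ (1 / 4) with hc1
  have hc1a : c₀ ≤ c1 := le_max_left _ _
  have hc1b : 1 / 4 ≤ c1 := le_max_right _ _
  have hc1c : c1 < 1 / 2 := max_lt hc₀ (by norm_num)
  have hcore : ∀ m : ℕ, ∃ n0 : ℕ, 0 < m → ∀ P : Finset (ℝ × ℝ), n0 ≤ P.card →
      (∀ a ∈ P, ∀ b ∈ P, ∀ c ∈ P, a ≠ b → a ≠ c → b ≠ c → orr a b c ≠ 0) →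
      (∃ F, CrossFamO P F ∧ c1 * P.card ≤ F.card) ∨ NonCrossO P m := by
    intro m
    by_cases hm : 0 < m
    · obtain ⟨n0, hn0⟩ := core' m hm c1 (by linarith) hc1c
      exact ⟨n0, fun _ => hn0⟩
    · exact ⟨0, fun h => absurd h hm⟩
  choose n0 hn0 using hcore
  -- the growing function
  let Q : ℕ → ℕ → Prop := fun n m => ∀ j, j ≤ m → n0 j ≤ n ∨ j = 0
  let g : ℕ → ℕ := fun n => Nat.findGreatest (Q n) n
  refine ⟨min (1 / 4) (1 / (n0 1 + 1)), by positivity, n0 1, fun n => max 1 (g n), ?_, ?_, ?_⟩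
  · intro n
    exact lt_of_lt_of_le Nat.one_pos (le_max_left _ _)
  · rw [Filter.tendsto_atTop]
    intro M
    rw [Filter.eventually_atTop]
    refine ⟨M + ∑ j ∈ Finset.range (M + 1), n0 j, ?_⟩
    intro n hn
    refine le_trans ?_ (le_max_right _ _)
    apply Nat.le_findGreatest
    · omega
    · intro j hj
      left
      have h1 : n0 j ≤ ∑ j ∈ Finset.range (M + 1), n0 j :=
        Finset.single_le_sum (f := n0) (fun _ _ => Nat.zero_le _)
          (Finset.mem_range.mpr (by omega))
      omega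
  · intro P hGP hP2
    have hgp : ∀ a ∈ P, ∀ b ∈ P, ∀ c ∈ P, a ≠ b → a ≠ c → b ≠ c → orr a b c ≠ 0 := by
      intro a ha b hb c hc hab hac hbc h0
      exact hGP a ha b hb c hc hab hac hbc (collinear_of_orr_eq_zero hab h0)
    have hPpos : (0 : ℝ) ≤ P.card := Nat.cast_nonneg _
    by_cases hg : 0 < g P.card
    · -- the large case
      have hQ : Q P.card (g P.card) :=
        Nat.findGreatest_spec (P := Q P.card) (m := 0) (n := P.card) (Nat.zero_le _)
          (fun j hj => Or.inr (by omega))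
      have hle : n0 (g P.card) ≤ P.card := by
        rcases hQ (g P.card) (le_refl _) with h | h
        · exact h
        · omega
      rcases hn0 (g P.card) hg P hle hgp with ⟨F, hF, hFc⟩ | h
      · left
        obtain ⟨F', hF', hcard⟩ := crossing_of_sign hF
        refine ⟨F', hF', ?_, ?_⟩
        · rw [hcard]
          refine le_trans ?_ hFc
          apply mul_le_mul_of_nonneg_right _ hPpos
          exact (min_le_left _ _).trans hc1b
        · intro _
          rw [hcard]
          exact le_trans (mul_le_mul_of_nonneg_right hc1a hPpos) hFc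
      · right
        obtain ⟨P₁, P₂, P₃, P₄, h1, h2⟩ := noncrossing_of_sign hg h
        refine ⟨P₁, P₂, P₃, P₄, h1, ?_⟩
        have : max 1 (g P.card) = g P.card := max_eq_right hg
        simp only [this]
        exact h2
    · -- the small case
      left
      have hg0 : g P.card = 0 := by omega
      have hsmall : P.card < n0 1 := by
        by_contra hcon
        push Not at hcon
        have : 1 ≤ g P.card := by
          apply Nat.le_findGreatest
          · omega
          · intro j hj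
            rcases Nat.eq_zero_or_pos j with h | h
            · exact Or.inr h
            · left
              have : j = 1 := by omega
              rw [this]; exact hcon
        omega
      obtain ⟨a, ha, b, hb, hab⟩ := Finset.one_lt_card.mp (show 1 < P.card by omega)
      refine ⟨{segment ℝ a b}, ⟨?_, ?_⟩, ?_, ?_⟩
      · intro s hs
        rw [Finset.mem_singleton] at hs
        exact ⟨a, ha, b, hb, hab, hs⟩
      · intro s hs t ht hne
        rw [Finset.mem_singleton] at hs ht
        exact absurd (hs.trans ht.symm) hne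
      · rw [Finset.card_singleton]
        have h1 : (P.card : ℝ) ≤ n0 1 + 1 := by
          have : P.card ≤ n0 1 + 1 := by omega
          exact_mod_cast this
        have h2 : (0 : ℝ) < (n0 1 : ℝ) + 1 := by positivity
        calc min (1 / 4) (1 / ((n0 1 : ℝ) + 1)) * (P.card : ℝ)
            ≤ 1 / ((n0 1 : ℝ) + 1) * P.card :=
              mul_le_mul_of_nonneg_right (min_le_right _ _) hPpos
          _ ≤ 1 / ((n0 1 : ℝ) + 1) * (n0 1 + 1) :=
              mul_le_mul_of_nonneg_left h1 (by positivity)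
          _ = 1 := by field_simp
          _ = ((1 : ℕ) : ℝ) := by norm_num
      · intro h
        omega

end Pool.Agent.Results.MP_657f9d_co.LinearCrossing
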